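import Mathlib

/-!
# Countable partitions of `ℝ^d` into bounded pieces, every point in at most two closures

The claim in question asks, for `d ≥ 2`, for a point lying in the closures of at least `d + 1`
members, for every partition of `ℝ^d` whose members have strict pairwise bound `D` and which has
only countably many members meeting some cube of side `D`.

We disprove it for every `d ≥ 2` and every `D > 0`, in the strongest possible way: there is a
partition of the whole of `ℝ^d` into countably many members, each with strict pairwise bound `D`,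
such that every point of `ℝ^d` lies in the closures of at most two members.

Construction.  Rescale so that `D = 1`.  Cut `ℝ^d` into the open cells of the cubical grid `ℤ^d`
(of all dimensions `0, …, d`), and slice each open cell by the values of
`⌊ ∑_i 1 / (t_i (1 - t_i)) ⌋`, where `t_i` runs over the non zero fractional parts of the
coordinates.  Since the slicing function blows up at the boundary of the cell, the closure of a
slice stays inside its open cell, so that a point lies only in closures of slices of its own cell,
and there are at most two of them.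
-/

namespace Pool.Agent.Results.MP_671186_gt.TwoClosures

open Set

/-- The slicing function: the sum of `1 / (t (1 - t))` over the fractional parts `t` of the
coordinates of `x / D` (integer coordinates contribute `0⁻¹ = 0`). -/
noncomputable def height {d : ℕ} (D : ℝ) (x : Fin d → ℝ) : ℝ :=
  ∑ i, (Int.fract (x i / D) * (1 - Int.fract (x i / D)))⁻¹

/-- The label of a point: the integer parts of the coordinates of `x / D`, the set of coordinates
which are not integers, and the integer part of the slicing function. -/
noncomputable def label {d : ℕ} (D : ℝ) (x : Fin d → ℝ) :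
    (Fin d → ℤ) × Set (Fin d) × ℤ :=
  (fun i => ⌊x i / D⌋, {i | Int.fract (x i / D) ≠ 0}, ⌊height D x⌋)

/-- The partition into the sets of constancy of the label. -/
def slices (d : ℕ) (D : ℝ) : Set (Set (Fin d → ℝ)) :=
  (Setoid.ker (label (d := d) D)).classes

lemma slices_isPartition (d : ℕ) (D : ℝ) : Setoid.IsPartition (slices d D) :=
  Setoid.isPartition_classes _

lemma mem_slices {d : ℕ} {D : ℝ} {X : Set (Fin d → ℝ)} (hX : X ∈ slices d D) :
    ∃ x, X = {y | label D y = label D x} := by
  obtain ⟨x, hx⟩ := hX
  exact ⟨x, hx⟩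

lemma slices_countable (d : ℕ) (D : ℝ) : (slices d D).Countable := by
  have : (Set.range fun l : (Fin d → ℤ) × Set (Fin d) × ℤ =>
      {y : Fin d → ℝ | label D y = l}).Countable := Set.countable_range _
  refine this.mono ?_
  intro X hX
  obtain ⟨x, rfl⟩ := mem_slices hX
  exact ⟨label D x, rfl⟩

lemma dist_lt_of_label {d : ℕ} {D : ℝ} (hD : 0 < D) {x y : Fin d → ℝ}
    (h : label D x = label D y) : dist x y < D := by
  rw [dist_pi_lt_iff hD]
  intro i
  have h1 : ⌊x i / D⌋ = ⌊y i / D⌋ := congrFun (congrArg Prod.fst h) i
  have h2 := Int.abs_sub_lt_one_of_floor_eq_floor h1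
  rw [← sub_div, abs_div, abs_of_pos hD, div_lt_one hD] at h2
  rw [Real.dist_eq]
  exact h2

lemma term_nonneg (t : ℝ) : 0 ≤ (Int.fract t * (1 - Int.fract t))⁻¹ := by
  have h1 := Int.fract_nonneg t
  have h2 := (Int.fract_lt_one t).le
  exact inv_nonneg.2 (mul_nonneg h1 (by linarith))

lemma height_nonneg {d : ℕ} (D : ℝ) (x : Fin d → ℝ) : 0 ≤ height D x :=
  Finset.sum_nonneg fun _ _ => term_nonneg _

/-- The key point: a point in the closure of a slice lies in the same open cell, and its height
is within the closed slab. -/
lemma closure_slice {d : ℕ} {D : ℝ} (x p : Fin d → ℝ)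
    (hp : p ∈ closure {y | label D y = label D x}) :
    (label D p).1 = (label D x).1 ∧ (label D p).2.1 = (label D x).2.1 ∧
      ((label D x).2.2 : ℝ) ≤ height D p ∧ height D p ≤ (label D x).2.2 + 1 := by
  classical
  set e : Fin d → ℤ := fun i => ⌊x i / D⌋ with he
  set S : Set (Fin d) := {i | Int.fract (x i / D) ≠ 0} with hS
  set r : ℤ := ⌊height D x⌋ with hr
  have hlab : label D x = (e, S, r) := rfl
  rw [hlab] at hp ⊢
  have hr0 : 0 ≤ r := Int.floor_nonneg.2 (height_nonneg D x)
  have hr1 : (0 : ℝ) < (r : ℝ) + 1 := by
    have : (0 : ℝ) ≤ (r : ℝ) := by exact_mod_cast hr0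
    linarith
  -- facts for points of the slice
  have hfloor : ∀ y : Fin d → ℝ, label D y = (e, S, r) → ∀ i, ⌊y i / D⌋ = e i := by
    intro y hy i
    exact congrFun (congrArg Prod.fst hy) i
  have hfr : ∀ y : Fin d → ℝ, label D y = (e, S, r) → ∀ i,
      Int.fract (y i / D) = y i / D - e i := by
    intro y hy i
    rw [← hfloor y hy i]
    rfl
  have hmemS : ∀ y : Fin d → ℝ, label D y = (e, S, r) → ∀ i,
      i ∈ S ↔ Int.fract (y i / D) ≠ 0 := by
    intro y hy i
    have : {i | Int.fract (y i / D) ≠ 0} = S := congrArg (fun z => z.2.1) hy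
    rw [← this]
    rfl
  have hht : ∀ y : Fin d → ℝ, label D y = (e, S, r) →
      (r : ℝ) ≤ height D y ∧ height D y < r + 1 := by
    intro y hy
    have : ⌊height D y⌋ = r := congrArg (fun z => z.2.2) hy
    exact Int.floor_eq_iff.1 this
  -- closed conditions
  have hcont : ∀ i, Continuous fun y : Fin d → ℝ => y i / D := by
    intro i
    have h : Continuous fun y : Fin d → ℝ => y i := continuous_apply i
    exact h.div_const D
  have hout : ∀ i, i ∉ S → p i / D = e i := by
    intro i hi
    have hcl : IsClosed {y : Fin d → ℝ | y i / D = e i} :=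
      isClosed_eq (hcont i) continuous_const
    have hsub : {y | label D y = (e, S, r)} ⊆ {y : Fin d → ℝ | y i / D = e i} := by
      intro y hy
      have h1 : Int.fract (y i / D) = 0 := by
        by_contra hne
        exact hi ((hmemS y hy i).2 hne)
      have h2 := hfr y hy i
      rw [h1] at h2
      have : y i / D = e i := by linarith
      exact this
    exact closure_minimal hsub hcl hp
  have hin : ∀ i, i ∈ S → 1 ≤ ((r : ℝ) + 1) * ((p i / D - e i) * (1 - (p i / D - e i))) := by
    intro i hi
    have hcl : IsClosed {y : Fin d → ℝ |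
        1 ≤ ((r : ℝ) + 1) * ((y i / D - e i) * (1 - (y i / D - e i)))} := by
      refine isClosed_le continuous_const ?_
      exact continuous_const.mul (((hcont i).sub continuous_const).mul
        (continuous_const.sub ((hcont i).sub continuous_const)))
    have hsub : {y | label D y = (e, S, r)} ⊆ {y : Fin d → ℝ |
        1 ≤ ((r : ℝ) + 1) * ((y i / D - e i) * (1 - (y i / D - e i)))} := by
      intro y hy
      have h1 := (hmemS y hy i).1 hi
      have h0 : 0 < Int.fract (y i / D) := lt_of_le_of_ne (Int.fract_nonneg _) (Ne.symm h1)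
      have h2 : Int.fract (y i / D) < 1 := Int.fract_lt_one _
      have h3 : 0 < Int.fract (y i / D) * (1 - Int.fract (y i / D)) :=
        mul_pos h0 (by linarith)
      have h4 : (Int.fract (y i / D) * (1 - Int.fract (y i / D)))⁻¹ ≤ height D y :=
        Finset.single_le_sum (f := fun i => (Int.fract (y i / D) * (1 - Int.fract (y i / D)))⁻¹)
          (fun j _ => term_nonneg _) (Finset.mem_univ i)
      have h5 := (hht y hy).2
      have h6 : (Int.fract (y i / D) * (1 - Int.fract (y i / D)))⁻¹ ≤ (r : ℝ) + 1 := by linarith
      have h7 : 1 ≤ ((r : ℝ) + 1) * (Int.fract (y i / D) * (1 - Int.fract (y i / D))) := by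
        have := mul_le_mul_of_nonneg_right h6 h3.le
        rwa [inv_mul_cancel₀ h3.ne'] at this
      rw [hfr y hy i] at h7
      exact h7
    exact closure_minimal hsub hcl hp
  have hpos : ∀ i, i ∈ S → 0 < p i / D - e i ∧ p i / D - e i < 1 := by
    intro i hi
    have h1 := hin i hi
    have h2 : 0 < (p i / D - e i) * (1 - (p i / D - e i)) := by
      by_contra hcon
      push Not at hcon
      have := mul_nonpos_of_nonneg_of_nonpos hr1.le hcon
      linarith
    constructor
    · by_contra hcon
      push Not at hcon
      have := mul_nonpos_of_nonpos_of_nonneg hcon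
        (by linarith : (0 : ℝ) ≤ 1 - (p i / D - e i))
      linarith
    · by_contra hcon
      push Not at hcon
      have := mul_nonpos_of_nonneg_of_nonpos (by linarith : (0 : ℝ) ≤ p i / D - e i)
        (by linarith : 1 - (p i / D - e i) ≤ 0)
      linarith
  have hpfloor : ∀ i, ⌊p i / D⌋ = e i := by
    intro i
    by_cases hi : i ∈ S
    · rw [Int.floor_eq_iff]
      obtain ⟨h1, h2⟩ := hpos i hi
      exact ⟨by linarith, by linarith⟩
    · rw [hout i hi]
      exact Int.floor_intCast _
  have hpfract : ∀ i, Int.fract (p i / D) = p i / D - e i := by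
    intro i
    rw [← hpfloor i]
    rfl
  have hpS : {i | Int.fract (p i / D) ≠ 0} = S := by
    ext i
    simp only [Set.mem_ofPred_eq]
    rw [hpfract i]
    constructor
    · intro h
      by_contra hi
      apply h
      rw [hout i hi]
      ring
    · intro h
      exact (hpos i h).1.ne'
  -- the height through a function continuous at `p`
  set H : (Fin d → ℝ) → ℝ := fun y =>
    ∑ i, if i ∈ S then ((y i / D - e i) * (1 - (y i / D - e i)))⁻¹ else 0 with hH
  have hHeq : ∀ y : Fin d → ℝ, (∀ i, Int.fract (y i / D) = y i / D - e i) →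
      (∀ i, i ∉ S → Int.fract (y i / D) = 0) → height D y = H y := by
    intro y h1 h2
    unfold height
    rw [hH]
    refine Finset.sum_congr rfl fun i _ => ?_
    by_cases hi : i ∈ S
    · rw [if_pos hi, h1 i]
    · rw [if_neg hi, h2 i hi]
      simp
  have hHcont : ContinuousAt H p := by
    rw [hH]
    refine tendsto_finsetSum _ fun i _ => ?_
    by_cases hi : i ∈ S
    · simp only [if_pos hi]
      have hc : Continuous fun y : Fin d → ℝ => (y i / D - e i) * (1 - (y i / D - e i)) :=
        ((hcont i).sub continuous_const).mul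
          (continuous_const.sub ((hcont i).sub continuous_const))
      have hne : (p i / D - e i) * (1 - (p i / D - e i)) ≠ 0 := by
        obtain ⟨h1, h2⟩ := hpos i hi
        exact (mul_pos h1 (by linarith)).ne'
      exact (hc.continuousAt.inv₀ hne)
    · simp only [if_neg hi]
      exact tendsto_const_nhds
  have hHmem : H p ∈ Set.Icc (r : ℝ) (r + 1) := by
    have h1 := mem_closure_image hHcont hp
    refine closure_minimal ?_ isClosed_Icc h1
    rintro _ ⟨y, hy, rfl⟩
    have h2 : height D y = H y := by
      refine hHeq y (hfr y hy) ?_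
      intro i hi
      by_contra hne
      exact hi ((hmemS y hy i).2 hne)
    rw [← h2]
    exact ⟨(hht y hy).1, (hht y hy).2.le⟩
  have hHp : height D p = H p := by
    refine hHeq p hpfract ?_
    intro i hi
    rw [hpfract i, hout i hi]
    ring
  refine ⟨?_, hpS, ?_, ?_⟩
  · funext i
    exact hpfloor i
  · rw [hHp]
    exact hHmem.1
  · rw [hHp]
    exact hHmem.2

lemma encard_closures {d : ℕ} (D : ℝ) (p : Fin d → ℝ) :
    {X | X ∈ slices d D ∧ p ∈ closure X}.encard ≤ 2 := by
  set g : ℤ → Set (Fin d → ℝ) := fun r =>
    {y | label D y = ((label D p).1, (label D p).2.1, r)} with hg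
  have hsub : {X | X ∈ slices d D ∧ p ∈ closure X} ⊆
      g '' {⌊height D p⌋, ⌈height D p⌉ - 1} := by
    rintro X ⟨hX, hp⟩
    obtain ⟨x, rfl⟩ := mem_slices hX
    obtain ⟨h1, h2, h3, h4⟩ := closure_slice x p hp
    refine ⟨(label D x).2.2, ?_, ?_⟩
    · rcases h4.lt_or_eq with h | h
      · left
        exact (Int.floor_eq_iff.2 ⟨h3, h⟩).symm
      · right
        rw [Set.mem_singleton_iff, h]
        have : ((label D x).2.2 : ℝ) + 1 = (((label D x).2.2 + 1 : ℤ) : ℝ) := by push_cast; ring
        rw [this, Int.ceil_intCast]
        ring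
    · rw [hg]
      simp only
      rw [h1, h2]
  calc {X | X ∈ slices d D ∧ p ∈ closure X}.encard
      ≤ (g '' {⌊height D p⌋, ⌈height D p⌉ - 1}).encard := Set.encard_le_encard hsub
    _ ≤ ({⌊height D p⌋, ⌈height D p⌉ - 1} : Set ℤ).encard := Set.encard_image_le _ _
    _ ≤ ({⌈height D p⌉ - 1} : Set ℤ).encard + 1 := Set.encard_insert_le _ _
    _ = 2 := by rw [Set.encard_singleton]; rfl

/-- **Disproof for every dimension `d ≥ 2`.**  For every `d` and every `D > 0` there is a
partition `P` of `ℝ^d` (with the sup metric) into countably many sets, each of strict pairwise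
bound `D`, such that every point of `ℝ^d` lies in the closures of at most two members of `P`.
Consequently, for `d ≥ 2`, no point lies in the closures of `d + 1` members. -/
theorem result (d : ℕ) (D : ℝ) (hD : 0 < D) :
    ∃ P : Set (Set (Fin d → ℝ)), Setoid.IsPartition P ∧ P.Countable ∧
      (∀ X ∈ P, ∀ x ∈ X, ∀ y ∈ X, dist x y < D) ∧
      (∀ p : Fin d → ℝ, {X | X ∈ P ∧ p ∈ closure X}.encard ≤ 2) ∧
      (2 ≤ d → ¬ ∃ p : Fin d → ℝ, ((d + 1 : ℕ) : ℕ∞) ≤ {X | X ∈ P ∧ p ∈ closure X}.encard) := by
  refine ⟨slices d D, slices_isPartition d D, slices_countable d D, ?_,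
    fun p => encard_closures D p, ?_⟩
  · intro X hX x hx y hy
    obtain ⟨z, rfl⟩ := mem_slices hX
    exact dist_lt_of_label hD (hx.trans hy.symm)
  · rintro hd ⟨p, hp⟩
    have h1 : ((d + 1 : ℕ) : ℕ∞) ≤ ((2 : ℕ) : ℕ∞) := hp.trans (encard_closures D p)
    have h2 : d + 1 ≤ 2 := by exact_mod_cast h1
    omega

end Pool.Agent.Results.MP_671186_gt.TwoClosures
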